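import Pool.Agent.Run7.h135.XK.Stm

/-!
# Pieces N5 and NP of project XK: local conditions at 5 and at the primes prime to 30
-/

set_option autoImplicit false

open WithZero

namespace Run7.h639.XK

open Run7.h135.XK

variable {L : Type} [Field L] (v : Valuation L ℤᵐ⁰)

lemma v_int_le (m : ℤ) : v (m : L) ≤ 1 := by
  rcases Int.natAbs_eq m with h | h
  · rw [h, Int.cast_natCast]
    induction m.natAbs with
    | zero => simp
    | succ k ih =>
      rw [Nat.cast_succ]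
      exact (v.map_add _ _).trans (max_le ih (by rw [v.map_one]))
  · rw [h, Int.cast_neg, v.map_neg, Int.cast_natCast]
    induction m.natAbs with
    | zero => simp
    | succ k ih =>
      rw [Nat.cast_succ]
      exact (v.map_add _ _).trans (max_le ih (by rw [v.map_one]))

/-- integers prime to `p` are units -/
lemma v_unit {p m : ℤ} (hp : v (p : L) < 1) (h : IsCoprime p m) : v (m : L) = 1 := by
  obtain ⟨s, t, hst⟩ := h
  have h1 : ((s : L) * p + t * m) = 1 := by exact_mod_cast congrArg (fun z : ℤ => (z : L)) hst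
  by_contra hne
  have hlt : v (m : L) < 1 := lt_of_le_of_ne (v_int_le v m) hne
  have h2 : v ((s : L) * p) < 1 := by
    rw [v.map_mul]
    exact (mul_le_of_le_one_left' (v_int_le v s)).trans_lt hp
  have h3 : v ((t : L) * m) < 1 := by
    rw [v.map_mul]
    exact (mul_le_of_le_one_left' (v_int_le v t)).trans_lt hlt
  have h4 := v.map_add_lt h2 h3
  rw [h1, v.map_one] at h4
  exact lt_irrefl _ h4

/-- the additive valuation -/
noncomputable def l (z : L) : ℤ := WithZero.log (v z)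

lemma l_mul {x y : L} (hx : x ≠ 0) (hy : y ≠ 0) : l v (x * y) = l v x + l v y := by
  unfold l
  rw [v.map_mul, WithZero.log_mul ((v.ne_zero_iff).2 hx) ((v.ne_zero_iff).2 hy)]

lemma l_of_eq {x y : L} (h : v x = v y) : l v x = l v y := by
  unfold l
  rw [h]

lemma l_of_one {x : L} (h : v x = 1) : l v x = 0 := by
  unfold l
  rw [h, WithZero.log_one]

lemma l_exp {x : L} {k : ℤ} (h : v x = exp k) : l v x = k := by
  unfold l
  rw [h, WithZero.log_exp]

/-- parity along `z = c u²` -/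
lemma l_sq {z c u : L} (hz : z ≠ 0) (h : z = c * u ^ 2) : ∃ k : ℤ, l v z = l v c + 2 * k := by
  have hc : c ≠ 0 := by
    rintro rfl
    exact hz (by rw [h, zero_mul])
  have hu : u ≠ 0 := by
    rintro rfl
    exact hz (by rw [h]; ring)
  refine ⟨l v u, ?_⟩
  rw [h, l_mul v hc (pow_ne_zero 2 hu), pow_two, l_mul v hu hu]
  ring

/-- the additive valuation of a squarefree integer -/
lemma l_sqf {p : ℕ} (hp : p.Prime) (hv : v (p : L) = exp (-1 : ℤ)) {a : ℤ} (ha : Squarefree a.natAbs) :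
    (a : L) ≠ 0 ∧ ((p : ℤ) ∣ a → l v (a : L) = -1) ∧ (¬ (p : ℤ) ∣ a → l v (a : L) = 0) := by
  have hlt : v (((p : ℤ) : L)) < 1 := by
    rw [Int.cast_natCast, hv, ← WithZero.exp_zero, WithZero.exp_lt_exp]
    norm_num
  have hpZ : Prime (p : ℤ) := Nat.prime_iff_prime_int.1 hp
  have hp0 : ((p : ℤ) : L) ≠ 0 := by
    intro h
    rw [Int.cast_natCast] at h
    rw [h, v.map_zero] at hv
    exact WithZero.exp_ne_zero hv.symm
  have hun : ∀ m : ℤ, ¬ (p : ℤ) ∣ m → v (m : L) = 1 := fun m hm =>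
    v_unit v hlt ((Prime.coprime_iff_not_dvd hpZ).2 hm)
  have hdiv : (p : ℤ) ∣ a → (a : L) ≠ 0 ∧ l v (a : L) = -1 := by
    rintro ⟨m, rfl⟩
    have hm : ¬ (p : ℤ) ∣ m := by
      rintro ⟨m', rfl⟩
      have h1 : (p * p : ℕ) ∣ ((p : ℤ) * ((p : ℤ) * m')).natAbs := by
        rw [Int.natAbs_mul, Int.natAbs_mul, Int.natAbs_natCast]
        exact ⟨m'.natAbs, by ring⟩
      exact hp.one_lt.ne' (Nat.isUnit_iff.1 (ha p h1))
    have h2 := hun m hm
    have hm0 : (m : L) ≠ 0 := by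
      intro h
      rw [h, v.map_zero] at h2
      exact zero_ne_one h2
    rw [Int.cast_mul]
    refine ⟨mul_ne_zero hp0 hm0, ?_⟩
    rw [l_mul v hp0 hm0, l_of_one v h2, Int.cast_natCast, l_exp v hv, add_zero]
  by_cases h : (p : ℤ) ∣ a
  · exact ⟨(hdiv h).1, fun _ => (hdiv h).2, fun h' => absurd h h'⟩
  · have h2 := hun a h
    refine ⟨?_, fun h' => absurd h' h, fun _ => l_of_one v h2⟩
    intro h0
    rw [h0, v.map_zero] at h2
    exact zero_ne_one h2

/-- if `v x > 1` all three have the same valuation -/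
lemma v_big {x : L} (hx : 1 < v x) (m : ℤ) : v (x - m) = v x ∧ x - m ≠ 0 := by
  have h1 : v (x - m) = v x := by
    rw [sub_eq_add_neg]
    apply v.map_add_eq_of_lt_left
    rw [v.map_neg]
    exact (v_int_le v m).trans_lt hx
  refine ⟨h1, fun h => ?_⟩
  rw [h, v.map_zero] at h1
  rw [← h1] at hx
  exact not_lt_zero hx

lemma ne_of_v {x : L} (h : v x = 1) : x ≠ 0 := by
  rintro rfl
  rw [v.map_zero] at h
  exact zero_ne_one h

/-- if `v x < 1` and `m` is a unit then `x - m` is a unit -/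
lemma v_small {x : L} (hx : v x < 1) {m : ℤ} (hm : v (m : L) = 1) : v (x - m) = 1 := by
  rw [sub_eq_add_neg, ← hm, ← v.map_neg (m : L)]
  apply v.map_add_eq_of_lt_right
  rwa [v.map_neg, hm]

/-- if `v x = 1` and `v m < 1` then `x - m` is a unit -/
lemma v_mid {x : L} (hx : v x = 1) {m : ℤ} (hm : v (m : L) < 1) : v (x - m) = 1 := by
  rw [sub_eq_add_neg, ← hx]
  apply v.map_add_eq_of_lt_left
  rwa [v.map_neg, hx]

theorem t_N5 : S_N5 := by
  intro L _ v hv a b ha hb hI hdvd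
  have hv' : v ((5 : ℕ) : L) = exp (-1 : ℤ) := by exact_mod_cast hv
  obtain ⟨ha0, -, -⟩ := l_sqf v Nat.prime_five hv' ha
  obtain ⟨hb0, hb1, -⟩ := l_sqf v Nat.prime_five hv' hb
  have hlb := hb1 (by exact_mod_cast hdvd)
  have h5 : v ((5 : ℤ) : L) < 1 := by
    have h := hv
    rw [show ((5 : ℤ) : L) = 5 by norm_cast, h, ← WithZero.exp_zero, WithZero.exp_lt_exp]
    norm_num
  have h9 : v ((9 : ℤ) : L) = 1 := v_unit v h5 (by norm_num)
  have h25 : v ((25 : ℤ) : L) < 1 := by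
    have h1 : ((25 : ℤ) : L) = ((5 : ℤ) : L) * ((5 : ℤ) : L) := by norm_num
    rw [h1, v.map_mul]
    exact (mul_le_of_le_one_left' h5.le).trans_lt h5
  rcases hI with ⟨-, hbs⟩ | ⟨x, u, s, w, e0, e1, e2⟩
  · obtain ⟨c, hc⟩ := hbs
    obtain ⟨k, hk⟩ := l_sq v hb0 (show (b : L) = 1 * c ^ 2 by rw [hc]; ring)
    rw [l_of_one v v.map_one] at hk
    omega
  · rw [sub_zero] at e0
    have e1' : x - ((9 : ℤ) : L) = b * s ^ 2 := by rw [← e1]; norm_cast
    have e2' : x - ((25 : ℤ) : L) = (a * b) * w ^ 2 := by rw [← e2]; norm_cast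
    rcases lt_trichotomy (v x) 1 with h | h | h
    · have h1 := v_small v h h9
      obtain ⟨k, hk⟩ := l_sq v (ne_of_v v h1) e1'
      rw [l_of_one v h1] at hk
      omega
    · have h1 := v_mid v h h25
      obtain ⟨k, hk⟩ := l_sq v (ne_of_v v h) e0
      obtain ⟨k', hk'⟩ := l_sq v (ne_of_v v h1) e2'
      rw [l_of_one v h] at hk
      rw [l_of_one v h1, l_mul v ha0 hb0] at hk'
      omega
    · obtain ⟨h1, n1⟩ := v_big v h 9
      obtain ⟨h2, n2⟩ := v_big v h 25
      have n0 : x ≠ 0 := by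
        rintro rfl
        rw [v.map_zero] at h
        exact not_lt_zero h
      obtain ⟨k, hk⟩ := l_sq v n0 e0
      obtain ⟨k1, hk1⟩ := l_sq v n1 e1'
      obtain ⟨k2, hk2⟩ := l_sq v n2 e2'
      rw [l_of_eq v h1] at hk1
      rw [l_of_eq v h2, l_mul v ha0 hb0] at hk2
      omega

theorem t_NP : S_NP := by
  intro L _ v p hp hp30 hv a b ha hb hI
  obtain ⟨ha0, ha1, -⟩ := l_sqf v hp hv ha
  obtain ⟨hb0, hb1, -⟩ := l_sqf v hp hv hb
  have hlt : v (((p : ℤ) : L)) < 1 := by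
    rw [Int.cast_natCast, hv, ← WithZero.exp_zero, WithZero.exp_lt_exp]
    norm_num
  have hpZ : Prime (p : ℤ) := Nat.prime_iff_prime_int.1 hp
  have hp2 : ¬ (p : ℤ) ∣ 2 := fun h => hp30 (by exact_mod_cast h.trans (by norm_num : (2 : ℤ) ∣ 30))
  have hp3 : ¬ (p : ℤ) ∣ 3 := fun h => hp30 (by exact_mod_cast h.trans (by norm_num : (3 : ℤ) ∣ 30))
  have hp5 : ¬ (p : ℤ) ∣ 5 := fun h => hp30 (by exact_mod_cast h.trans (by norm_num : (5 : ℤ) ∣ 30))
  have hun : ∀ m : ℤ, ¬ (p : ℤ) ∣ m → v (m : L) = 1 := fun m hm =>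
    v_unit v hlt ((Prime.coprime_iff_not_dvd hpZ).2 hm)
  have h9 : v ((9 : ℤ) : L) = 1 := hun 9 fun h => hp3 (hpZ.dvd_of_dvd_pow
    (show (p : ℤ) ∣ 3 ^ 2 by norm_num; exact h))
  have h16 : v ((16 : ℤ) : L) = 1 := hun 16 fun h => hp2 (hpZ.dvd_of_dvd_pow
    (show (p : ℤ) ∣ 2 ^ 4 by norm_num; exact h))
  have h25 : v ((25 : ℤ) : L) = 1 := hun 25 fun h => hp5 (hpZ.dvd_of_dvd_pow
    (show (p : ℤ) ∣ 5 ^ 2 by norm_num; exact h))
  have main : (∃ k : ℤ, l v (a : L) = 2 * k) ∧ ∃ k : ℤ, l v (b : L) = 2 * k := by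
    rcases hI with ⟨has, hbs⟩ | ⟨x, u, s, w, e0, e1, e2⟩
    · obtain ⟨c, hc⟩ := hbs
      obtain ⟨d, hd⟩ := has
      obtain ⟨k, hk⟩ := l_sq v hb0 (show (b : L) = 1 * c ^ 2 by rw [hc]; ring)
      obtain ⟨k', hk'⟩ := l_sq v ha0 (show (a : L) = 1 * d ^ 2 by rw [hd]; ring)
      rw [l_of_one v v.map_one] at hk hk'
      exact ⟨⟨k', by omega⟩, ⟨k, by omega⟩⟩
    · rw [sub_zero] at e0
      have e1' : x - ((9 : ℤ) : L) = b * s ^ 2 := by rw [← e1]; norm_cast
      have e2' : x - ((25 : ℤ) : L) = (a * b) * w ^ 2 := by rw [← e2]; norm_cast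
      rcases lt_trichotomy (v x) 1 with h | h | h
      · have h1 := v_small v h h9
        have h2 := v_small v h h25
        obtain ⟨k, hk⟩ := l_sq v (ne_of_v v h1) e1'
        obtain ⟨k', hk'⟩ := l_sq v (ne_of_v v h2) e2'
        rw [l_of_one v h1] at hk
        rw [l_of_one v h2, l_mul v ha0 hb0] at hk'
        exact ⟨⟨k - k', by omega⟩, ⟨-k, by omega⟩⟩
      · obtain ⟨k0, hk0⟩ := l_sq v (ne_of_v v h) e0
        rw [l_of_one v h] at hk0
        have hle : v (x - ((9 : ℤ) : L)) ≤ 1 := (v.map_sub _ _).trans (max_le h.le h9.le)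
        rcases hle.lt_or_eq with h1 | h1
        · -- then `x - 25` is a unit
          have h2 : v (x - ((25 : ℤ) : L)) = 1 := by
            have h3 := v_small v h1 h16
            have h4 : x - ((9 : ℤ) : L) - ((16 : ℤ) : L) = x - ((25 : ℤ) : L) := by
              push_cast
              ring
            rwa [h4] at h3
          obtain ⟨k', hk'⟩ := l_sq v (ne_of_v v h2) e2'
          rw [l_of_one v h2, l_mul v ha0 hb0] at hk'
          exact ⟨⟨-k0, by omega⟩, ⟨k0 - k', by omega⟩⟩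
        · obtain ⟨k, hk⟩ := l_sq v (ne_of_v v h1) e1'
          rw [l_of_one v h1] at hk
          exact ⟨⟨-k0, by omega⟩, ⟨-k, by omega⟩⟩
      · obtain ⟨h1, n1⟩ := v_big v h 9
        obtain ⟨h2, n2⟩ := v_big v h 25
        have n0 : x ≠ 0 := by
          rintro rfl
          rw [v.map_zero] at h
          exact not_lt_zero h
        obtain ⟨k, hk⟩ := l_sq v n0 e0
        obtain ⟨k1, hk1⟩ := l_sq v n1 e1'
        obtain ⟨k2, hk2⟩ := l_sq v n2 e2'
        rw [l_of_eq v h1] at hk1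
        rw [l_of_eq v h2, l_mul v ha0 hb0] at hk2
        exact ⟨⟨k1 - k2, by omega⟩, ⟨k - k2, by omega⟩⟩
  obtain ⟨⟨ka, hka⟩, kb, hkb⟩ := main
  refine ⟨fun h => ?_, fun h => ?_⟩
  · have := ha1 h
    omega
  · have := hb1 h
    omega

end Run7.h639.XK
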